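import Pool.Agent.R237.LZ.Stm

/-!
# FRAC: termwise fractional integration (helper515)
-/

set_option autoImplicit false

open MeasureTheory Filter Topology Set

namespace Pool.Agent.R237.LZ

theorem frac_int (α : ℝ) (h2 : α < 2) (k : ℕ) :
    ∫ t in Set.Ioi (0 : ℝ), t ^ (1 - α) * Real.exp (-(((k : ℝ) + 1) * t)) =
      (1 / ((k : ℝ) + 1)) ^ (2 - α) * Real.Gamma (2 - α) := by
  have h := Real.integral_rpow_mul_exp_neg_mul_Ioi (a := 2 - α) (r := (k : ℝ) + 1)
    (by linarith) (by positivity)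
  rw [show (2 - α - 1) = 1 - α by ring] at h
  exact h

theorem frac_integrable (α : ℝ) (h2 : α < 2) (k : ℕ) :
    IntegrableOn (fun t : ℝ => t ^ (1 - α) * Real.exp (-(((k : ℝ) + 1) * t))) (Set.Ioi 0) := by
  by_contra hc
  have h := frac_int α h2 k
  rw [integral_undef hc] at h
  have : 0 < (1 / ((k : ℝ) + 1)) ^ (2 - α) * Real.Gamma (2 - α) :=
    mul_pos (Real.rpow_pos_of_pos (by positivity) _) (Real.Gamma_pos_of_pos (by linarith))
  linarith

theorem t_FRAC : S_FRAC := by
  intro α h1 h2 u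
  set a : ℕ → ℝ := fun k => (-1) ^ k * (k : ℝ) ^ 2 * ((k.factorial : ℝ) ^ (-α)) *
    (Real.exp u) ^ k with ha
  set g : ℕ → ℝ → ℝ := fun k t => t ^ (1 - α) * Real.exp (-((k : ℝ) * t)) with hg
  have ha0 : a 0 = 0 := by simp [ha]
  have hG : 0 < Real.Gamma (2 - α) := Real.Gamma_pos_of_pos (by linarith)
  have hgint : ∀ k : ℕ, ∫ t in Set.Ioi (0 : ℝ), g (k + 1) t =
      (1 / ((k : ℝ) + 1)) ^ (2 - α) * Real.Gamma (2 - α) := by
    intro k
    rw [← frac_int α h2 k]
    simp [hg]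
  have hint : ∀ k : ℕ, IntegrableOn (fun t => a k * g k t) (Set.Ioi 0) := by
    intro k
    rcases k with _ | k
    · simp [ha0]
    · have h := (frac_integrable α h2 k).const_mul (a (k + 1))
      have h2 : IntegrableOn (fun t => a (k + 1) * g (k + 1) t) (Set.Ioi 0) := by
        unfold IntegrableOn
        simpa [hg] using h
      exact h2
  have hpt : ∀ t : ℝ, hs α 2 (Real.exp (u - t)) * t ^ (1 - α) = ∑' k : ℕ, a k * g k t := by
    intro t
    rw [hs, ← tsum_mul_right]
    congr 1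
    funext k
    have : Real.exp (u - t) ^ k = Real.exp u ^ k * Real.exp (-((k : ℝ) * t)) := by
      rw [← Real.exp_nat_mul, ← Real.exp_nat_mul, ← Real.exp_add]
      congr 1
      ring
    rw [this]
    simp only [ha, hg]
    ring
  have hnorm : ∀ k : ℕ, ∫ t in Set.Ioi (0 : ℝ), ‖a k * g k t‖ =
      |a k| * ∫ t in Set.Ioi (0 : ℝ), g k t := by
    intro k
    rw [← integral_const_mul]
    refine setIntegral_congr_fun measurableSet_Ioi ?_
    intro t ht
    have ht' : (0 : ℝ) < t := ht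
    have : 0 ≤ g k t := mul_nonneg (Real.rpow_nonneg ht'.le _) (Real.exp_pos _).le
    simp only [norm_mul, Real.norm_eq_abs, abs_of_nonneg this]
  have hbound : ∀ k : ℕ, |a k| * ∫ t in Set.Ioi (0 : ℝ), g k t ≤
      Real.Gamma (2 - α) * ((4 * Real.exp u) ^ k / (k.factorial : ℝ)) := by
    intro k
    rcases k with _ | k
    · rw [ha0]
      simp only [abs_zero, zero_mul]
      positivity
    · rw [hgint k]
      have hk1 : (1 : ℝ) ≤ (k : ℝ) + 1 := by
        have : (0 : ℝ) ≤ (k : ℝ) := Nat.cast_nonneg k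
        linarith
      have e1 : (1 / ((k : ℝ) + 1)) ^ (2 - α) ≤ 1 := by
        refine Real.rpow_le_one (by positivity) ?_ (by linarith)
        rw [div_le_one (by linarith)]
        exact hk1
      have hf1 : (1 : ℝ) ≤ ((k + 1).factorial : ℝ) := by
        exact_mod_cast Nat.one_le_iff_ne_zero.mpr (Nat.factorial_ne_zero _)
      have e2 : (((k + 1).factorial : ℝ)) ^ (-α) ≤ (((k + 1).factorial : ℝ))⁻¹ := by
        rw [← Real.rpow_neg_one]
        exact Real.rpow_le_rpow_of_exponent_le hf1 (by linarith)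
      have e3 : (((k + 1 : ℕ) : ℝ)) ^ 2 ≤ 4 ^ (k + 1) := by
        have h3 : (((k + 1 : ℕ) : ℝ)) ≤ 2 ^ (k + 1) := by
          exact_mod_cast (Nat.lt_two_pow_self (n := k + 1)).le
        have h4 : (4 : ℝ) ^ (k + 1) = (2 ^ (k + 1)) ^ 2 := by
          rw [← pow_mul, mul_comm, pow_mul]
          norm_num
        rw [h4]
        exact pow_le_pow_left₀ (by positivity) h3 2
      have e4 : |a (k + 1)| = (((k + 1 : ℕ) : ℝ)) ^ 2 * (((k + 1).factorial : ℝ)) ^ (-α) *
          (Real.exp u) ^ (k + 1) := by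
        have hA : 0 ≤ (((k + 1).factorial : ℝ)) ^ (-α) := by positivity
        simp only [ha, abs_mul, abs_pow, abs_neg, abs_one, one_pow, one_mul,
          abs_of_nonneg hA, abs_of_nonneg (Real.exp_pos u).le, Nat.abs_cast]
      rw [e4]
      have hA : 0 ≤ (((k + 1).factorial : ℝ)) ^ (-α) := by positivity
      have s1 : (((k + 1 : ℕ) : ℝ)) ^ 2 * (((k + 1).factorial : ℝ)) ^ (-α) *
          (Real.exp u) ^ (k + 1) ≤ 4 ^ (k + 1) * (((k + 1).factorial : ℝ))⁻¹ *
          (Real.exp u) ^ (k + 1) := by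
        refine mul_le_mul_of_nonneg_right ?_ (by positivity)
        exact mul_le_mul e3 e2 hA (by positivity)
      have s2 : (1 / ((k : ℝ) + 1)) ^ (2 - α) * Real.Gamma (2 - α) ≤ Real.Gamma (2 - α) := by
        nlinarith [mul_le_mul_of_nonneg_right e1 hG.le]
      calc _ ≤ (4 ^ (k + 1) * (((k + 1).factorial : ℝ))⁻¹ * (Real.exp u) ^ (k + 1)) *
            Real.Gamma (2 - α) := by
            refine mul_le_mul s1 s2 (by positivity) (by positivity)
        _ = _ := by
            rw [mul_pow]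
            ring
  have hsumb : Summable fun k : ℕ => Real.Gamma (2 - α) *
      ((4 * Real.exp u) ^ k / (k.factorial : ℝ)) :=
    (Real.summable_pow_div_factorial (4 * Real.exp u)).mul_left _
  have hgnn : ∀ k : ℕ, 0 ≤ ∫ t in Set.Ioi (0 : ℝ), g k t := by
    intro k
    refine setIntegral_nonneg measurableSet_Ioi ?_
    intro t ht
    exact mul_nonneg (Real.rpow_nonneg (le_of_lt ht) _) (Real.exp_pos _).le
  have hsum : Summable fun k : ℕ => ∫ t in Set.Ioi (0 : ℝ), ‖a k * g k t‖ := by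
    simp_rw [hnorm]
    exact Summable.of_nonneg_of_le (fun k => mul_nonneg (abs_nonneg _) (hgnn k)) hbound hsumb
  have H := hasSum_integral_of_summable_integral_norm (μ := volume.restrict (Set.Ioi (0 : ℝ)))
    (F := fun k t => a k * g k t) hint hsum
  simp_rw [hpt]
  rw [← H.tsum_eq, H.summable.tsum_eq_zero_add]
  simp only [ha0, zero_mul, integral_zero, zero_add, integral_const_mul]
  rw [hs, ← tsum_mul_left, ← tsum_neg]
  congr 1
  funext k
  rw [hgint k]
  have hk : (0 : ℝ) < (k : ℝ) + 1 := by positivity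
  have hkf : (0 : ℝ) ≤ (k.factorial : ℝ) := by positivity
  have q1 : (((k + 1).factorial : ℝ)) ^ (-α) =
      ((k : ℝ) + 1) ^ (-α) * ((k.factorial : ℝ)) ^ (-α) := by
    rw [Nat.factorial_succ, Nat.cast_mul, Real.mul_rpow (by positivity) hkf]
    push_cast
    rfl
  have q2 : (1 / ((k : ℝ) + 1)) ^ (2 - α) = ((k : ℝ) + 1) ^ (α - 2) := by
    rw [one_div, Real.inv_rpow hk.le, ← Real.rpow_neg hk.le]
    congr 1
    ring
  have q3 : ((k : ℝ) + 1) ^ (2 : ℕ) * ((k : ℝ) + 1) ^ (-α) * ((k : ℝ) + 1) ^ (α - 2) = 1 := by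
    rw [← Real.rpow_natCast, ← Real.rpow_add hk, ← Real.rpow_add hk]
    have : ((2 : ℕ) : ℝ) + -α + (α - 2) = 0 := by push_cast; ring
    rw [this, Real.rpow_zero]
  simp only [ha]
  rw [q1, q2]
  push_cast
  calc _ = -(((k : ℝ) + 1) ^ (2 : ℕ) * ((k : ℝ) + 1) ^ (-α) * ((k : ℝ) + 1) ^ (α - 2)) *
        ((-1) ^ k * ((k.factorial : ℝ)) ^ (-α) * Real.exp u ^ (k + 1) * Real.Gamma (2 - α)) := by
        rw [pow_succ (-1 : ℝ)]
        ring
    _ = _ := by
        rw [q3, pow_succ (Real.exp u)]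
        ring

end Pool.Agent.R237.LZ
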