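import Pool.Agent.R237.LZ.Stm

/-! Piece LIMB of project LZ (helper159). -/

set_option autoImplicit false

open MeasureTheory Filter Topology

namespace Pool.Agent.R237.LZ

namespace LIMB

/-- the coefficient of the polynomial -/
noncomputable def cf (α : ℝ) (n k : ℕ) : ℝ :=
  if k ∈ Finset.range (n + 1) then (((n.choose k : ℝ) / (n : ℝ) ^ k) ^ α) else 0

lemma inv_fact_le (α : ℝ) (hα : 1 ≤ α) (k : ℕ) (c : ℝ) (h0 : 0 ≤ c) (h1 : c ≤ 1 / (k.factorial : ℝ)) :
    c ^ α ≤ 1 / (k.factorial : ℝ) := by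
  have hf : (1 : ℝ) ≤ (k.factorial : ℝ) := by exact_mod_cast Nat.one_le_iff_ne_zero.2 (Nat.factorial_ne_zero k)
  have h2 : c ≤ 1 := h1.trans (by rw [div_le_one (by linarith)]; exact hf)
  rcases eq_or_lt_of_le h0 with h | h
  · rw [← h, Real.zero_rpow (by linarith)]
    positivity
  · calc c ^ α ≤ c ^ (1 : ℝ) := Real.rpow_le_rpow_of_exponent_ge h h2 hα
      _ = c := Real.rpow_one c
      _ ≤ _ := h1

lemma cf_bound (α : ℝ) (hα : 1 ≤ α) (n k : ℕ) : 0 ≤ cf α n k ∧ cf α n k ≤ 1 / (k.factorial : ℝ) := by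
  unfold cf
  split_ifs with h
  · refine ⟨Real.rpow_nonneg (by positivity) _, inv_fact_le α hα k _ (by positivity) ?_⟩
    rcases Nat.eq_zero_or_pos n with hn | hn
    · subst hn
      have hk : k = 0 := by simpa using h
      subst hk
      simp
    · have hn' : (0 : ℝ) < (n : ℝ) ^ k := by positivity
      rw [div_le_iff₀ hn', one_div, inv_mul_eq_div]
      exact Nat.choose_le_pow_div k n
  · exact ⟨le_rfl, by positivity⟩

lemma lf_bound (α : ℝ) (hα : 1 ≤ α) (k : ℕ) :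
    0 ≤ (k.factorial : ℝ) ^ (-α) ∧ (k.factorial : ℝ) ^ (-α) ≤ 1 / (k.factorial : ℝ) := by
  refine ⟨by positivity, ?_⟩
  rw [Real.rpow_neg (by positivity), ← Real.inv_rpow (by positivity)]
  exact inv_fact_le α hα k _ (by positivity) (by rw [one_div])

lemma cf_tendsto (α : ℝ) (hα : 1 ≤ α) (k : ℕ) :
    Tendsto (fun n => cf α n k) atTop (𝓝 ((k.factorial : ℝ) ^ (-α))) := by
  have h1 : Tendsto (fun n : ℕ => (n : ℝ) * ((n : ℝ)⁻¹)) atTop (𝓝 1) := by
    refine tendsto_const_nhds.congr' ?_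
    filter_upwards [eventually_ge_atTop 1] with n hn
    have : (n : ℝ) ≠ 0 := by positivity
    rw [mul_inv_cancel₀ this]
  have h2 := ProbabilityTheory.tendsto_choose_mul_pow_atTop k h1
  have h3 : Tendsto (fun n : ℕ => ((n.choose k : ℝ) * ((n : ℝ)⁻¹) ^ k) ^ α) atTop
      (𝓝 ((1 ^ k / (k.factorial : ℝ)) ^ α)) := h2.rpow_const (Or.inr (by linarith))
  have h4 : (1 ^ k / (k.factorial : ℝ)) ^ α = (k.factorial : ℝ) ^ (-α) := by
    rw [one_pow, one_div, Real.inv_rpow (by positivity), Real.rpow_neg (by positivity)]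
  rw [h4] at h3
  refine h3.congr' ?_
  filter_upwards [eventually_ge_atTop k] with n hn
  unfold cf
  rw [if_pos (Finset.mem_range.2 (by omega)), inv_pow, ← div_eq_mul_inv]

lemma key (α : ℝ) (hα : 1 ≤ α) (X : ℝ) (hX : 0 ≤ X) :
    Tendsto (fun n => ∑' k : ℕ, |cf α n k - (k.factorial : ℝ) ^ (-α)| * X ^ k) atTop (𝓝 0) := by
  have hsum : Summable (fun k : ℕ => X ^ k / (k.factorial : ℝ)) := Real.summable_pow_div_factorial X
  have h := tendsto_tsum_of_dominated_convergence (𝓕 := atTop)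
    (f := fun n k => |cf α n k - (k.factorial : ℝ) ^ (-α)| * X ^ k) (g := fun _ => (0 : ℝ))
    (bound := fun k : ℕ => X ^ k / (k.factorial : ℝ)) hsum ?_ ?_
  · simpa using h
  · intro k
    have h1 : Tendsto (fun n => cf α n k - (k.factorial : ℝ) ^ (-α)) atTop (𝓝 0) := by
      have := (cf_tendsto α hα k).sub_const ((k.factorial : ℝ) ^ (-α))
      simpa using this
    have h2 := (h1.abs).mul_const (X ^ k)
    simpa using h2
  · refine Eventually.of_forall fun n k => ?_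
    have h1 := cf_bound α hα n k
    have h2 := lf_bound α hα k
    rw [Real.norm_eq_abs, abs_of_nonneg (by positivity)]
    have h3 : |cf α n k - (k.factorial : ℝ) ^ (-α)| ≤ 1 / (k.factorial : ℝ) := by
      rw [abs_le]; constructor <;> linarith [h1.1, h1.2, h2.1, h2.2]
    calc |cf α n k - (k.factorial : ℝ) ^ (-α)| * X ^ k ≤ 1 / (k.factorial : ℝ) * X ^ k := by gcongr
      _ = X ^ k / (k.factorial : ℝ) := by ring

lemma pn_eq (α : ℝ) (n : ℕ) (x : ℝ) : pn α n (-x) = ∑' k : ℕ, cf α n k * (-x) ^ k := by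
  unfold pn
  rw [tsum_eq_sum (s := Finset.range (n + 1))]
  · refine Finset.sum_congr rfl fun k hk => ?_
    unfold cf
    rw [if_pos hk]
  · intro k hk
    unfold cf
    rw [if_neg hk, zero_mul]

lemma hs_eq (α : ℝ) (x : ℝ) : hs α 0 x = ∑' k : ℕ, (k.factorial : ℝ) ^ (-α) * (-x) ^ k := by
  unfold hs
  refine tsum_congr fun k => ?_
  rw [neg_pow x k]
  ring

lemma summ (X x : ℝ) (hx : |x| ≤ X) (c : ℕ → ℝ) (hc : ∀ k, |c k| ≤ 1 / (k.factorial : ℝ)) :
    Summable (fun k : ℕ => c k * x ^ k) := by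
  refine Summable.of_norm_bounded (Real.summable_pow_div_factorial X) fun k => ?_
  rw [Real.norm_eq_abs, abs_mul, abs_pow]
  have hX : 0 ≤ X := (abs_nonneg x).trans hx
  calc |c k| * |x| ^ k ≤ 1 / (k.factorial : ℝ) * X ^ k := by
        gcongr
        exact hc k
    _ = X ^ k / (k.factorial : ℝ) := by ring

end LIMB

open LIMB in
theorem t_LIMB : S_LIMB := by
  intro α hα X ε hε
  by_cases hX : 0 ≤ X
  swap
  · exact ⟨0, fun n _ x h0 h1 => absurd (h0.trans h1) hX⟩
  have h := key α hα X hX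
  rw [Metric.tendsto_atTop] at h
  obtain ⟨n0, hn0⟩ := h ε hε
  refine ⟨n0, fun n hn x h0 h1 => ?_⟩
  have h2 := hn0 n hn
  rw [Real.dist_eq, sub_zero] at h2
  have hcf : ∀ k : ℕ, |cf α n k| ≤ 1 / (k.factorial : ℝ) := fun k => by
    rw [abs_of_nonneg (cf_bound α hα n k).1]; exact (cf_bound α hα n k).2
  have hlf : ∀ k : ℕ, |(k.factorial : ℝ) ^ (-α)| ≤ 1 / (k.factorial : ℝ) := fun k => by
    rw [abs_of_nonneg (lf_bound α hα k).1]; exact (lf_bound α hα k).2
  have hxX : |(-x)| ≤ X := by rw [abs_neg, abs_of_nonneg h0]; exact h1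
  have s1 := summ X (-x) hxX _ hcf
  have s2 := summ X (-x) hxX _ hlf
  have hdf : ∀ k : ℕ, |(|cf α n k - (k.factorial : ℝ) ^ (-α)|)| ≤ 1 / (k.factorial : ℝ) := fun k => by
    have a1 := cf_bound α hα n k
    have a2 := lf_bound α hα k
    rw [abs_abs, abs_le]; constructor <;> linarith [a1.1, a1.2, a2.1, a2.2]
  have s3 := summ X X (by rw [abs_of_nonneg hX]) _ hdf
  rw [pn_eq, hs_eq, ← s1.tsum_sub s2]
  have s4 : Summable (fun k : ℕ => ‖cf α n k * (-x) ^ k - (k.factorial : ℝ) ^ (-α) * (-x) ^ k‖) := by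
    have := (s1.sub s2).abs
    exact this
  rw [← Real.norm_eq_abs]
  refine (norm_tsum_le_tsum_norm s4).trans ?_
  refine le_trans (Summable.tsum_le_tsum (fun k => ?_) s4 s3) (le_trans (le_abs_self _) h2.le)
  rw [← sub_mul, norm_mul, norm_pow, norm_neg, Real.norm_eq_abs, Real.norm_eq_abs, abs_of_nonneg h0]
  gcongr

end Pool.Agent.R237.LZ
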