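import Pool.Agent.R237.LZ.Stm

/-!
# Project LZ (helper237), piece LIMC: growth of the polynomials from below
-/

set_option autoImplicit false

open MeasureTheory Filter Topology

namespace Pool.Agent.R237.LZ

namespace LC

theorem coef {n k : ℕ} (hk : 1 ≤ k) (hn : 2 * k ≤ n) :
    (1 / 2 : ℝ) ^ k / (k.factorial : ℝ) ≤ (n.choose k : ℝ) / (n : ℝ) ^ k := by
  have hn0 : (0 : ℝ) < n := by
    have : 0 < n := by omega
    exact_mod_cast this
  have h1 : (((n + 1 - k : ℕ) : ℝ) ^ k) / (k.factorial : ℝ) ≤ (n.choose k : ℝ) := by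
    exact_mod_cast Nat.pow_le_choose (α := ℝ) k n
  have h2 : (n : ℝ) / 2 ≤ ((n + 1 - k : ℕ) : ℝ) := by
    have h3 : n ≤ 2 * (n + 1 - k) := by omega
    have h4 : (n : ℝ) ≤ 2 * ((n + 1 - k : ℕ) : ℝ) := by exact_mod_cast h3
    linarith
  have h5 : ((n : ℝ) / 2) ^ k / (k.factorial : ℝ) ≤ (n.choose k : ℝ) := by
    refine le_trans ?_ h1
    gcongr
  rw [le_div_iff₀ (pow_pos hn0 k)]
  calc (1 / 2 : ℝ) ^ k / (k.factorial : ℝ) * (n : ℝ) ^ k
      = ((n : ℝ) / 2) ^ k / (k.factorial : ℝ) := by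
        rw [div_mul_eq_mul_div, ← mul_pow]
        congr 2
        ring
    _ ≤ _ := h5

end LC

theorem t_LIMC : S_LIMC := by
  intro α hα N A
  set c : ℝ := (1 / 2 : ℝ) ^ (N + 1) / ((N + 1).factorial : ℝ) with hc
  have hc0 : 0 < c := by positivity
  set d : ℝ := c ^ α with hd
  have hd0 : 0 < d := Real.rpow_pos_of_pos hc0 α
  set M : ℝ := |A| * 2 ^ N / d + 1 with hM
  have hM1 : 1 ≤ M := by
    have : 0 ≤ |A| * 2 ^ N / d := by positivity
    linarith
  have hM0 : 0 < M := by linarith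
  refine ⟨M, hM1, 2 * (N + 1), fun n hn => ?_⟩
  have h1 : |A| * 2 ^ N < d * M := by
    have : d * M = |A| * 2 ^ N + d := by
      rw [hM]; field_simp
    linarith
  have h2 : A * (1 + M) ^ N ≤ |A| * 2 ^ N * M ^ N := by
    calc A * (1 + M) ^ N ≤ |A| * (1 + M) ^ N := by
          gcongr
          exact le_abs_self A
      _ ≤ |A| * (2 * M) ^ N := by
          gcongr
          linarith
      _ = |A| * 2 ^ N * M ^ N := by rw [mul_pow]; ring
  have h3 : |A| * 2 ^ N * M ^ N < d * M ^ (N + 1) := by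
    have := mul_lt_mul_of_pos_right h1 (pow_pos hM0 N)
    calc |A| * 2 ^ N * M ^ N < d * M * M ^ N := this
      _ = d * M ^ (N + 1) := by ring
  have h4 : d ≤ ((n.choose (N + 1) : ℝ) / (n : ℝ) ^ (N + 1)) ^ α :=
    Real.rpow_le_rpow hc0.le (LC.coef (by omega) hn) (by linarith)
  have h5 : d * M ^ (N + 1) ≤ pn α n M := by
    have h6 : ((n.choose (N + 1) : ℝ) / (n : ℝ) ^ (N + 1)) ^ α * M ^ (N + 1) ≤ pn α n M := by
      unfold pn
      refine Finset.single_le_sum
        (f := fun k => (((n.choose k : ℝ) / (n : ℝ) ^ k) ^ α) * M ^ k) (fun k _ => ?_) ?_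
      · have : (0 : ℝ) ≤ (n.choose k : ℝ) / (n : ℝ) ^ k := by positivity
        exact mul_nonneg (Real.rpow_nonneg this α) (pow_nonneg hM0.le k)
      · rw [Finset.mem_range]
        omega
    refine le_trans ?_ h6
    gcongr
  linarith

end Pool.Agent.R237.LZ
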