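import Pool.Agent.R237.LZ.Stm

/-!
# Project LZ: the sign of the Le Roy series
-/

set_option autoImplicit false

open MeasureTheory Filter Topology

namespace Pool.Agent.R237.LZ

theorem neg_bound {α : ℝ} {j : ℕ} {C1 C2 : ℝ} (h1 : ∀ x : ℝ, 0 < x → x ≤ 1 → |hs α j x| ≤ C1 * x)
    (h2 : ∀ x : ℝ, 0 < x → |hs α j x| ≤ C2 * x ^ (-(1 / 2) : ℝ)) (v : ℝ) :
    |hs α j (Real.exp v)| ≤ (|C1| + |C2|) * Real.exp (-|v| / 2) := by
  have hE : 0 < Real.exp (-|v| / 2) := Real.exp_pos _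
  have a1 := abs_nonneg C1
  have a2 := abs_nonneg C2
  rcases le_total v 0 with hv | hv
  · have k1 := h1 (Real.exp v) (Real.exp_pos v) (Real.exp_le_one_iff.2 hv)
    have k2 : Real.exp v ≤ Real.exp (-|v| / 2) := by
      rw [abs_of_nonpos hv]
      exact Real.exp_le_exp.2 (by linarith)
    calc |hs α j (Real.exp v)| ≤ C1 * Real.exp v := k1
      _ ≤ |C1| * Real.exp v := mul_le_mul_of_nonneg_right (le_abs_self C1) (Real.exp_pos v).le
      _ ≤ |C1| * Real.exp (-|v| / 2) := mul_le_mul_of_nonneg_left k2 a1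
      _ ≤ (|C1| + |C2|) * Real.exp (-|v| / 2) :=
        mul_le_mul_of_nonneg_right (by linarith) hE.le
  · have k1 := h2 (Real.exp v) (Real.exp_pos v)
    rw [← Real.exp_mul] at k1
    have k2 : v * (-(1 / 2)) = -|v| / 2 := by
      rw [abs_of_nonneg hv]
      ring
    rw [k2] at k1
    calc |hs α j (Real.exp v)| ≤ C2 * Real.exp (-|v| / 2) := k1
      _ ≤ (|C1| + |C2|) * Real.exp (-|v| / 2) :=
        mul_le_mul_of_nonneg_right (by linarith [le_abs_self C2]) hE.le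

theorem t_NEG (h1 : S_DEC) (h2 : S_FRAC) (h3 : S_TAIL) (h4 : S_SER) : S_NEG := by
  intro α hα hα2
  obtain ⟨s1, s2, s3, s4⟩ := h4 α hα.le
  obtain ⟨A1, hA1⟩ := s3 1 le_rfl
  obtain ⟨A2, hA2⟩ := s3 2 (by norm_num)
  obtain ⟨B0, hB0⟩ := h1 α hα hα2 0 (by norm_num)
  obtain ⟨B1, hB1⟩ := h1 α hα hα2 1 (by norm_num)
  obtain ⟨B2, hB2⟩ := h1 α hα hα2 2 (by norm_num)
  obtain ⟨C, hC⟩ : ∃ C, C = |A1| + |B1| + (|A2| + |B2|) := ⟨_, rfl⟩
  have hb1 : ∀ v, |hs α 1 (Real.exp v)| ≤ C * Real.exp (-|v| / 2) := by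
    intro v
    refine (neg_bound hA1 hB1 v).trans (mul_le_mul_of_nonneg_right ?_ (Real.exp_pos _).le)
    rw [hC]
    linarith [abs_nonneg A2, abs_nonneg B2]
  have hb2 : ∀ v, |hs α 2 (Real.exp v)| ≤ C * Real.exp (-|v| / 2) := by
    intro v
    refine (neg_bound hA2 hB2 v).trans (mul_le_mul_of_nonneg_right ?_ (Real.exp_pos _).le)
    rw [hC]
    linarith [abs_nonneg A1, abs_nonneg B1]
  have hbot : Tendsto (fun v => hs α 0 (Real.exp v)) atBot (𝓝 1) := by
    have k1 : Tendsto (hs α 0) (𝓝 0) (𝓝 (hs α 0 0)) := (s2 0).tendsto 0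
    rw [s4] at k1
    exact k1.comp Real.tendsto_exp_atBot
  have htop : Tendsto (fun v => hs α 0 (Real.exp v)) atTop (𝓝 0) := by
    refine squeeze_zero_norm (a := fun v => B0 * Real.exp (v * (-(1 / 2)))) ?_ ?_
    · intro v
      rw [Real.norm_eq_abs, Real.exp_mul]
      exact hB0 _ (Real.exp_pos v)
    · have k1 : Tendsto (fun v : ℝ => v * (-(1 / 2))) atTop atBot :=
        tendsto_id.atTop_mul_const_of_neg (by norm_num)
      have k2 := (Real.tendsto_exp_atBot.comp k1).const_mul B0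
      rw [mul_zero] at k2
      exact k2
  obtain ⟨U, hU⟩ := h3 α C (fun v => hs α 0 (Real.exp v)) (fun v => hs α 1 (Real.exp v))
    (fun v => hs α 2 (Real.exp v)) hα hα2 (s1 0) (s1 1) ((s2 2).comp Real.continuous_exp) hb1 hb2
    hbot htop
  refine ⟨max 1 (Real.exp U), le_max_left _ _, fun x hx => ?_⟩
  have hx0 : 0 < x := lt_of_lt_of_le one_pos ((le_max_left _ _).trans hx)
  have hu : U ≤ Real.log x := (Real.le_log_iff_exp_le hx0).2 ((le_max_right _ _).trans hx)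
  have k1 := hU (Real.log x) hu
  have k2 := h2 α hα hα2 (Real.log x)
  have k3 : 0 < -(Real.Gamma (2 - α) * Real.exp (Real.log x) * hs α 0 (Real.exp (Real.log x))) := by
    rw [← k2]
    exact k1
  rw [Real.exp_log hx0] at k3
  have k4 : 0 < Real.Gamma (2 - α) := Real.Gamma_pos_of_pos (by linarith)
  by_contra hc
  have k5 : 0 ≤ hs α 0 x := not_lt.1 hc
  have k6 : 0 ≤ Real.Gamma (2 - α) * x * hs α 0 x := by positivity
  linarith

end Pool.Agent.R237.LZ
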