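import Mathlib

/-!
# Project LZ (helper237): exponents `1 < α < 2` do not preserve real-rootedness (MP_3f3e0f_an)
-/

set_option autoImplicit false

open MeasureTheory Filter Topology

namespace Pool.Agent.R237.LZ

/-- The series `∑ (-1)^k k^j x^k / (k!)^α`. -/
noncomputable def hs (α : ℝ) (j : ℕ) (x : ℝ) : ℝ :=
  ∑' k : ℕ, (-1) ^ k * (k : ℝ) ^ j * ((k.factorial : ℝ) ^ (-α)) * x ^ k

/-- The polynomials `∑_{k ≤ n} (C(n,k) / n^k)^α x^k`. -/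
noncomputable def pn (α : ℝ) (n : ℕ) (x : ℝ) : ℝ :=
  ∑ k ∈ Finset.range (n + 1), (((n.choose k : ℝ) / (n : ℝ) ^ k) ^ α) * x ^ k

/-- GAM1: lower bound for the Gamma function. -/
def S_GAM1 : Prop := ∀ s : ℂ, -(1 / 2) ≤ s.re →
  Real.Gamma (1 + s.re) / √(Real.cosh (Real.pi * s.im)) ≤ ‖Complex.Gamma (1 + s)‖

/-- GAM2: a holomorphic logarithm of the Gamma function. -/
def S_GAM2 : Prop := ∃ L : ℂ → ℂ, DifferentiableOn ℂ L {s | -1 < s.re} ∧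
  (∀ s : ℂ, -1 < s.re → Complex.exp (L s) = Complex.Gamma (1 + s)) ∧
  ∀ x : ℝ, -1 < x → (L x).im = 0

/-- STRIP: the residue identity in a strip. -/
def S_STRIP : Prop := ∀ (G : ℂ → ℂ) (C θ : ℝ), 0 ≤ C → θ < 1 →
  DifferentiableOn ℂ G {s | -1 < s.re ∧ s.re < 1} →
  (∀ s : ℂ, |s.re| ≤ 1 / 2 → ‖G s‖ ≤ C * Real.exp (θ * Real.pi * |s.im|)) →
  (∫ y : ℝ, G (-(1 / 2) + y * Complex.I) / (Real.cosh (Real.pi * y) : ℂ)) +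
    (∫ y : ℝ, G (1 / 2 + y * Complex.I) / (Real.cosh (Real.pi * y) : ℂ)) = 2 * G 0

/-- DEC: decay of the series on the positive half-line. -/
def S_DEC : Prop := ∀ α : ℝ, 1 < α → α < 2 → ∀ j : ℕ, j ≤ 2 →
  ∃ C : ℝ, ∀ x : ℝ, 0 < x → |hs α j x| ≤ C * x ^ (-(1 / 2) : ℝ)

/-- FRAC: the fractional differential equation. -/
def S_FRAC : Prop := ∀ α : ℝ, 1 < α → α < 2 → ∀ u : ℝ,
  ∫ t in Set.Ioi (0 : ℝ), hs α 2 (Real.exp (u - t)) * t ^ (1 - α) =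
    -(Real.Gamma (2 - α) * Real.exp u * hs α 0 (Real.exp u))

/-- TAIL: the sign of the fractional derivative. -/
def S_TAIL : Prop := ∀ (α C : ℝ) (φ φ1 φ2 : ℝ → ℝ), 1 < α → α < 2 →
  (∀ v, HasDerivAt φ (φ1 v) v) → (∀ v, HasDerivAt φ1 (φ2 v) v) → Continuous φ2 →
  (∀ v, |φ1 v| ≤ C * Real.exp (-|v| / 2)) → (∀ v, |φ2 v| ≤ C * Real.exp (-|v| / 2)) →
  Tendsto φ atBot (𝓝 1) → Tendsto φ atTop (𝓝 0) →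
  ∃ U : ℝ, ∀ u, U ≤ u → 0 < ∫ t in Set.Ioi (0 : ℝ), φ2 (u - t) * t ^ (1 - α)

/-- SER: elementary facts on the series. -/
def S_SER : Prop := ∀ α : ℝ, 1 ≤ α →
  (∀ (j : ℕ) (v : ℝ), HasDerivAt (fun v => hs α j (Real.exp v)) (hs α (j + 1) (Real.exp v)) v) ∧
  (∀ j : ℕ, Continuous (hs α j)) ∧
  (∀ j : ℕ, 1 ≤ j → ∃ C : ℝ, ∀ x : ℝ, 0 < x → x ≤ 1 → |hs α j x| ≤ C * x) ∧
  hs α 0 0 = 1

/-- CNT: counting zeros. `R n` is the list of the reciprocals of the zeros. -/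
def S_CNT : Prop := ∀ (R : ℕ → List ℝ) (K θ X0 : ℝ), 0 ≤ K → 0 < θ → θ < 1 → 1 ≤ X0 →
  (∀ n, ∀ r ∈ R n, 0 ≤ r) →
  (∀ n, ∀ x : ℝ, 0 ≤ x → ((R n).map fun r => 1 + r * x).prod ≤ Real.exp (K * x ^ θ)) →
  (∀ X1 : ℝ, X0 ≤ X1 → ∃ n0 : ℕ, ∀ n, n0 ≤ n → ∀ x : ℝ, X0 ≤ x → x ≤ X1 →
    ((R n).map fun r => 1 - r * x).prod ≠ 0) →
  (∀ (N : ℕ) (A : ℝ), ∃ M : ℝ, 1 ≤ M ∧ ∃ n0 : ℕ, ∀ n, n0 ≤ n →
    A * (1 + M) ^ N < ((R n).map fun r => 1 + r * M).prod) →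
  False

/-- LIMA: growth of the polynomials. -/
def S_LIMA : Prop := ∀ α : ℝ, 1 ≤ α → ∀ n : ℕ, ∀ x : ℝ, 0 ≤ x →
  pn α n x ≤ Real.exp (α * x ^ (1 / α))

/-- LIMB: locally uniform convergence of the polynomials. -/
def S_LIMB : Prop := ∀ α : ℝ, 1 ≤ α → ∀ X ε : ℝ, 0 < ε → ∃ n0 : ℕ, ∀ n, n0 ≤ n →
  ∀ x : ℝ, 0 ≤ x → x ≤ X → |pn α n (-x) - hs α 0 x| ≤ ε

/-- LIMC: growth of the polynomials from below. -/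
def S_LIMC : Prop := ∀ α : ℝ, 1 ≤ α → ∀ (N : ℕ) (A : ℝ), ∃ M : ℝ, 1 ≤ M ∧ ∃ n0 : ℕ, ∀ n, n0 ≤ n →
  A * (1 + M) ^ N < pn α n M

/-- NEG: the sign of the series. -/
def S_NEG : Prop := ∀ α : ℝ, 1 < α → α < 2 → ∃ X0 : ℝ, 1 ≤ X0 ∧ ∀ x, X0 ≤ x → hs α 0 x < 0

end Pool.Agent.R237.LZ
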