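import Pool.Agent.R237.LZ.Stm

/-! Piece TAIL of project LZ (MP_3f3e0f_an). -/

set_option autoImplicit false

open MeasureTheory Filter Topology

namespace Pool.Agent.R237.LZ

namespace TailAux

lemma intE : Integrable (fun v : ℝ => Real.exp (-|v| / 2)) := by
  rw [← integrableOn_univ, ← Set.Iic_union_Ioi (a := (0 : ℝ)), integrableOn_union]
  constructor
  · refine (integrableOn_exp_mul_Iic (a := 1 / 2) (by norm_num) 0).congr_fun ?_ measurableSet_Iic
    intro x hx
    have hx' : x ≤ 0 := hx
    simp only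
    rw [abs_of_nonpos hx']
    congr 1; ring
  · refine (integrableOn_exp_mul_Ioi (a := -(1 / 2)) (by norm_num) 0).congr_fun ?_
      measurableSet_Ioi
    intro x hx
    have hx' : 0 < x := hx
    simp only
    rw [abs_of_pos hx']
    congr 1; ring

variable {α C : ℝ}

lemma intφ {φ1 : ℝ → ℝ} (hc1 : Continuous φ1)
    (hb1 : ∀ v, |φ1 v| ≤ C * Real.exp (-|v| / 2)) : Integrable φ1 :=
  (intE.const_mul C).mono' hc1.aestronglyMeasurable (Eventually.of_forall fun v => hb1 v)

/-- integrability of `φ(u-t) t^s` on `(a, ∞)` for `s ≤ 0 < a` -/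
lemma intTail {φ1 : ℝ → ℝ} (hc1 : Continuous φ1)
    (hb1 : ∀ v, |φ1 v| ≤ C * Real.exp (-|v| / 2)) (u a s : ℝ) (ha : 0 < a) (hs : s ≤ 0) :
    IntegrableOn (fun t => φ1 (u - t) * t ^ s) (Set.Ioi a) := by
  have hm : IntegrableOn (fun t => a ^ s * |φ1 (u - t)|) (Set.Ioi a) := by
    have h1 : Integrable (fun t => φ1 (u - t)) := (intφ hc1 hb1).comp_sub_left u
    exact (h1.abs.const_mul _).integrableOn
  refine Integrable.mono' hm ?_ ?_
  · refine ContinuousOn.aestronglyMeasurable ?_ measurableSet_Ioi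
    refine ContinuousOn.mul (hc1.comp (continuous_const.sub continuous_id)).continuousOn ?_
    intro t ht
    have : t ≠ 0 := by have : a < t := ht; linarith
    exact (Real.continuousAt_rpow_const _ _ (Or.inl this)).continuousWithinAt
  · refine (ae_restrict_mem measurableSet_Ioi).mono fun t ht => ?_
    have ht' : a < t := ht
    rw [Real.norm_eq_abs, abs_mul, mul_comm]
    refine mul_le_mul_of_nonneg_right ?_ (abs_nonneg _)
    rw [abs_of_nonneg (Real.rpow_nonneg (by linarith) _)]
    exact Real.rpow_le_rpow_of_nonpos ha ht'.le hs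

end TailAux

open TailAux

theorem t_TAIL : S_TAIL := by
  intro α C φ φ1 φ2 hα1 hα2 hφ hφ1 hc2 hb1 hb2 hbot htop
  have hC : 0 ≤ C := by
    have := (abs_nonneg _).trans (hb1 0)
    simpa using this
  have hc1 : Continuous φ1 := continuous_iff_continuousAt.mpr fun v => (hφ1 v).continuousAt
  -- the integral of φ1
  have hint1 : ∫ v, φ1 v = 0 - 1 :=
    integral_of_hasDerivAt_of_tendsto hφ (intφ hc1 hb1) hbot htop
  -- dominated convergence
  have hDC : Tendsto (fun u : ℝ => ∫ v : ℝ, (if v < u / 2 then φ1 v * ((u - v) / u) ^ (-α) else 0))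
      atTop (𝓝 (∫ v, φ1 v)) := by
    refine tendsto_integral_filter_of_dominated_convergence
      (fun v => 2 ^ α * (C * Real.exp (-|v| / 2))) ?_ ?_ ((intE.const_mul C).const_mul _) ?_
    · refine Eventually.of_forall fun u => ?_
      refine Measurable.aestronglyMeasurable ?_
      refine Measurable.ite (measurableSet_lt measurable_id measurable_const) ?_ measurable_const
      exact hc1.measurable.mul (((measurable_const.sub measurable_id).div_const u).pow_const _)
    · filter_upwards [eventually_gt_atTop (0 : ℝ)] with u hu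
      refine Eventually.of_forall fun v => ?_
      split_ifs with hv
      · rw [Real.norm_eq_abs, abs_mul, mul_comm]
        have h1 : (1 / 2 : ℝ) ≤ (u - v) / u := by
          rw [le_div_iff₀ hu]; linarith
        have h0 : (0 : ℝ) < (u - v) / u := by linarith
        refine mul_le_mul ?_ (hb1 v) (abs_nonneg _) (by positivity)
        rw [abs_of_nonneg (Real.rpow_nonneg h0.le _)]
        calc ((u - v) / u) ^ (-α) ≤ (1 / 2 : ℝ) ^ (-α) :=
              Real.rpow_le_rpow_of_nonpos (by norm_num) h1 (by linarith)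
          _ = 2 ^ α := by
              rw [one_div, Real.inv_rpow (by norm_num), Real.rpow_neg (by norm_num), inv_inv]
      · rw [norm_zero]; positivity
    · refine Eventually.of_forall fun v => ?_
      have h1 : Tendsto (fun u : ℝ => (u - v) / u) atTop (𝓝 1) := by
        have h2 : Tendsto (fun u : ℝ => 1 - v / u) atTop (𝓝 (1 - 0)) :=
          tendsto_const_nhds.sub (tendsto_const_nhds.div_atTop tendsto_id)
        rw [sub_zero] at h2
        refine h2.congr' ?_
        filter_upwards [eventually_gt_atTop (0 : ℝ)] with u hu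
        field_simp
      have h3 : Tendsto (fun u : ℝ => φ1 v * ((u - v) / u) ^ (-α)) atTop (𝓝 (φ1 v)) := by
        have h4 := (h1.rpow_const (p := -α) (Or.inl one_ne_zero)).const_mul (φ1 v)
        simpa using h4
      refine h3.congr' ?_
      filter_upwards [eventually_gt_atTop (2 * v)] with u hu
      rw [if_pos (by linarith)]
  rw [hint1] at hDC
  -- the two error terms
  have hE1 : Tendsto (fun u : ℝ => (u / 4) ^ 2 * Real.exp (-(u / 4))) atTop (𝓝 0) :=
    (Real.tendsto_pow_mul_exp_neg_atTop_nhds_zero 2).comp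
      (tendsto_id.atTop_div_const (by norm_num))
  have hE2 : Tendsto (fun u : ℝ => (u / 4) ^ 1 * Real.exp (-(u / 4))) atTop (𝓝 0) :=
    (Real.tendsto_pow_mul_exp_neg_atTop_nhds_zero 1).comp
      (tendsto_id.atTop_div_const (by norm_num))
  have hE1' : Tendsto (fun u : ℝ => C * 16 / (2 - α) * ((u / 4) ^ 2 * Real.exp (-(u / 4)))) atTop
      (𝓝 (C * 16 / (2 - α) * 0)) := hE1.const_mul _
  have hE2' : Tendsto (fun u : ℝ => C * 8 * ((u / 4) ^ 1 * Real.exp (-(u / 4)))) atTop
      (𝓝 (C * 8 * 0)) := hE2.const_mul _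
  rw [mul_zero] at hE1' hE2'
  have hpos : (0 : ℝ) < (α - 1) / 8 := by linarith
  have hev := (((hDC.eventually (gt_mem_nhds (by norm_num : (0 - 1 : ℝ) < -(1 / 2)))).and
    ((hE1'.eventually (gt_mem_nhds hpos)).and (hE2'.eventually (gt_mem_nhds hpos)))).and
    (eventually_ge_atTop (1 : ℝ)))
  obtain ⟨U, hU⟩ := eventually_atTop.mp hev
  refine ⟨U, fun u hu => ?_⟩
  obtain ⟨⟨h1, h2, h3⟩, hu1⟩ := hU u hu
  have hu0 : 0 < u := by linarith
  have hu2 : 0 < u / 2 := by linarith
  have huα : (0 : ℝ) < u ^ α := Real.rpow_pos_of_pos hu0 _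
  have habs : ∀ {v : ℝ}, u / 2 ≤ v → Real.exp (-|v| / 2) ≤ Real.exp (-(u / 4)) := by
    intro v hv
    apply Real.exp_le_exp.mpr
    rw [abs_of_nonneg (by linarith)]
    linarith
  -- the first part
  have hr : IntegrableOn (fun t : ℝ => t ^ (1 - α)) (Set.Ioc 0 (u / 2)) := by
    have := (intervalIntegral.intervalIntegrable_rpow' (a := 0) (b := u / 2) (r := 1 - α)
      (by linarith))
    rwa [intervalIntegrable_iff_integrableOn_Ioc_of_le hu2.le] at this
  have hri : ∫ t in Set.Ioc 0 (u / 2), t ^ (1 - α) = (u / 2) ^ (2 - α) / (2 - α) := by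
    rw [← intervalIntegral.integral_of_le hu2.le, integral_rpow (Or.inl (by linarith)),
      Real.zero_rpow (by linarith), sub_zero]
    congr 1 <;> [congr 1; skip] <;> ring
  have hb : ∀ t ∈ Set.Ioc 0 (u / 2), ‖φ2 (u - t) * t ^ (1 - α)‖ ≤
      C * Real.exp (-(u / 4)) * t ^ (1 - α) := by
    intro t ht
    rw [Real.norm_eq_abs, abs_mul, abs_of_nonneg (Real.rpow_nonneg ht.1.le _)]
    refine mul_le_mul_of_nonneg_right ?_ (Real.rpow_nonneg ht.1.le _)
    exact (hb2 _).trans (mul_le_mul_of_nonneg_left (habs (by linarith [ht.2])) hC)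
  have hm1 : AEStronglyMeasurable (fun t => φ2 (u - t) * t ^ (1 - α))
      (volume.restrict (Set.Ioc 0 (u / 2))) := by
    refine Measurable.aestronglyMeasurable ?_
    exact (hc2.comp (continuous_const.sub continuous_id)).measurable.mul
      (measurable_id.pow_const _)
  have hI1 : IntegrableOn (fun t => φ2 (u - t) * t ^ (1 - α)) (Set.Ioc 0 (u / 2)) :=
    Integrable.mono' (hr.const_mul _) hm1
      ((ae_restrict_mem measurableSet_Ioc).mono fun t ht => hb t ht)
  have hI2 : IntegrableOn (fun t => φ2 (u - t) * t ^ (1 - α)) (Set.Ioi (u / 2)) :=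
    intTail hc2 hb2 u (u / 2) (1 - α) hu2 (by linarith)
  have hI3 : IntegrableOn (fun t => φ1 (u - t) * t ^ (-α)) (Set.Ioi (u / 2)) :=
    intTail hc1 hb1 u (u / 2) (-α) hu2 (by linarith)
  have hA : |∫ t in Set.Ioc 0 (u / 2), φ2 (u - t) * t ^ (1 - α)| ≤
      C * Real.exp (-(u / 4)) * ((u / 2) ^ (2 - α) / (2 - α)) := by
    rw [← hri, ← integral_const_mul, ← Real.norm_eq_abs]
    refine norm_integral_le_of_norm_le (hr.const_mul _) ?_
    exact (ae_restrict_mem measurableSet_Ioc).mono fun t ht => hb t ht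
  -- integration by parts
  have hparts : ∫ t in Set.Ioi (u / 2), (φ2 (u - t) * t ^ (1 - α) -
      (1 - α) * (φ1 (u - t) * t ^ (-α))) = 0 - (-(φ1 (u - u / 2) * (u / 2) ^ (1 - α))) := by
    refine integral_Ioi_of_hasDerivAt_of_tendsto' (f := fun t => -(φ1 (u - t) * t ^ (1 - α)))
      ?_ (hI2.sub (hI3.const_mul _)) ?_
    · intro t ht
      have ht' : 0 < t := lt_of_lt_of_le hu2 ht
      have h5 : HasDerivAt (fun t => φ1 (u - t)) (φ2 (u - t) * (-1)) t := by
        have h6 : HasDerivAt (fun t : ℝ => u - t) (-1) t := by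
          simpa using (hasDerivAt_id t).const_sub u
        exact (hφ1 (u - t)).comp t h6
      have h7 := Real.hasDerivAt_rpow_const (p := 1 - α) (Or.inl ht'.ne')
      have h8 := (h5.mul h7).neg
      refine h8.congr_deriv ?_
      have h9 : (1 - α - 1) = -α := by ring
      rw [h9]
      ring
    · have h5 : Tendsto (fun t : ℝ => φ1 (u - t)) atTop (𝓝 0) := by
        rw [tendsto_zero_iff_abs_tendsto_zero]
        refine squeeze_zero (fun t => abs_nonneg _) (fun t => hb1 (u - t)) ?_
        have h6 : Tendsto (fun t : ℝ => -|u - t| / 2) atTop atBot := by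
          refine Tendsto.atBot_div_const (by norm_num) ?_
          refine tendsto_neg_atTop_atBot.comp ?_
          have h7 : Tendsto (fun t : ℝ => t - u) atTop atTop :=
            tendsto_atTop_add_const_right _ _ tendsto_id
          refine tendsto_atTop_mono (fun t => ?_) h7
          rw [abs_sub_comm]; exact le_abs_self _
        have h8 := (Real.tendsto_exp_atBot.comp h6).const_mul C
        rw [mul_zero] at h8
        exact h8
      have h6 : Tendsto (fun t : ℝ => t ^ (1 - α)) atTop (𝓝 0) := by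
        have := tendsto_rpow_neg_atTop (y := α - 1) (by linarith)
        rwa [neg_sub] at this
      have h7 := (h5.mul h6).neg
      simpa using h7
  rw [integral_sub hI2 (hI3.const_mul _), integral_const_mul] at hparts
  -- the main term
  have hK : ∫ v : ℝ, (if v < u / 2 then φ1 v * ((u - v) / u) ^ (-α) else 0) =
      u ^ α * ∫ t in Set.Ioi (u / 2), φ1 (u - t) * t ^ (-α) := by
    rw [← integral_sub_left_eq_self (fun v : ℝ =>
      (if v < u / 2 then φ1 v * ((u - v) / u) ^ (-α) else 0)) volume u,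
      ← integral_const_mul, ← integral_indicator measurableSet_Ioi]
    refine integral_congr_ae (Eventually.of_forall fun t => ?_)
    simp only [Set.indicator_apply, Set.mem_Ioi]
    by_cases ht : u / 2 < t
    · rw [if_pos ht, if_pos (by linarith)]
      have ht0 : 0 < t := by linarith
      have h5 : (u - (u - t)) / u = t / u := by ring
      rw [h5, Real.div_rpow ht0.le hu0.le, Real.rpow_neg hu0.le]
      field_simp
    · rw [if_neg ht, if_neg (by linarith)]
  rw [hK] at h1
  set K := ∫ t in Set.Ioi (u / 2), φ1 (u - t) * t ^ (-α) with hKdef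
  have hsplit : ∫ t in Set.Ioi (0 : ℝ), φ2 (u - t) * t ^ (1 - α) =
      (∫ t in Set.Ioc 0 (u / 2), φ2 (u - t) * t ^ (1 - α)) +
        ∫ t in Set.Ioi (u / 2), φ2 (u - t) * t ^ (1 - α) := by
    rw [← setIntegral_union (Set.Ioc_disjoint_Ioi le_rfl) measurableSet_Ioi hI1 hI2,
      Set.Ioc_union_Ioi_eq_Ioi hu2.le]
  have hB : |φ1 (u - u / 2) * (u / 2) ^ (1 - α)| ≤
      C * Real.exp (-(u / 4)) * (u / 2) ^ (1 - α) := by
    rw [abs_mul, abs_of_nonneg (Real.rpow_nonneg hu2.le _)]
    refine mul_le_mul_of_nonneg_right ?_ (Real.rpow_nonneg hu2.le _)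
    exact (hb1 _).trans (mul_le_mul_of_nonneg_left (habs (by linarith)) hC)
  have hpw1 : u ^ α * (C * Real.exp (-(u / 4)) * ((u / 2) ^ (2 - α) / (2 - α))) ≤
      C * 16 / (2 - α) * ((u / 4) ^ 2 * Real.exp (-(u / 4))) := by
    have h5 : (u / 2) ^ (2 - α) ≤ u ^ (2 - α) :=
      Real.rpow_le_rpow hu2.le (by linarith) (by linarith)
    have h6 : u ^ α * u ^ (2 - α) = u ^ 2 := by
      rw [← Real.rpow_add hu0]
      have : α + (2 - α) = 2 := by ring
      rw [this]; norm_num
    have h2α : 0 < 2 - α := by linarith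
    calc u ^ α * (C * Real.exp (-(u / 4)) * ((u / 2) ^ (2 - α) / (2 - α)))
        ≤ u ^ α * (C * Real.exp (-(u / 4)) * (u ^ (2 - α) / (2 - α))) := by gcongr
      _ = (u ^ α * u ^ (2 - α)) * C * Real.exp (-(u / 4)) / (2 - α) := by ring
      _ = _ := by rw [h6]; ring
  have hpw2 : u ^ α * (C * Real.exp (-(u / 4)) * (u / 2) ^ (1 - α)) ≤
      C * 8 * ((u / 4) ^ 1 * Real.exp (-(u / 4))) := by
    have h5 : (u / 2) ^ (1 - α) ≤ 2 * u ^ (1 - α) := by
      rw [Real.div_rpow hu0.le (by norm_num), div_eq_mul_inv, ← Real.rpow_neg (by norm_num),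
        mul_comm]
      refine mul_le_mul_of_nonneg_right ?_ (Real.rpow_nonneg hu0.le _)
      calc (2 : ℝ) ^ (-(1 - α)) ≤ 2 ^ (1 : ℝ) :=
            Real.rpow_le_rpow_of_exponent_le (by norm_num) (by linarith)
        _ = 2 := Real.rpow_one _
    have h6 : u ^ α * u ^ (1 - α) = u := by
      rw [← Real.rpow_add hu0]
      have : α + (1 - α) = 1 := by ring
      rw [this, Real.rpow_one]
    calc u ^ α * (C * Real.exp (-(u / 4)) * (u / 2) ^ (1 - α))
        ≤ u ^ α * (C * Real.exp (-(u / 4)) * (2 * u ^ (1 - α))) := by gcongr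
      _ = (u ^ α * u ^ (1 - α)) * 2 * C * Real.exp (-(u / 4)) := by ring
      _ = _ := by rw [h6]; ring
  -- the end
  have hfin : 0 < u ^ α * ∫ t in Set.Ioi (0 : ℝ), φ2 (u - t) * t ^ (1 - α) := by
    have h5 := neg_le_of_abs_le hA
    have h6 := neg_le_of_abs_le hB
    have h7 := mul_le_mul_of_nonneg_left h5 huα.le
    have h8 := mul_le_mul_of_nonneg_left h6 huα.le
    have h9 : ∫ t in Set.Ioi (u / 2), φ2 (u - t) * t ^ (1 - α) =
        φ1 (u - u / 2) * (u / 2) ^ (1 - α) + (1 - α) * K := by linarith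
    rw [hsplit, h9]
    have h10 : (α - 1) * (1 / 2) ≤ (1 - α) * (u ^ α * K) := by nlinarith
    nlinarith
  exact (mul_pos_iff_of_pos_left huα).mp hfin


end Pool.Agent.R237.LZ
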